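import Mathlib

set_option autoImplicit false

namespace Pool.Agent.TH143.HL

open Finset

variable {K : Type} [Field K]

/-- `g ↦ g ^ m`. -/
noncomputable def pw (K : Type) [Field K] (m : ℕ) : Kˣ →* K :=
  (powMonoidHom m).comp (Units.coeHom K)

/-- The value at `m` of a sum of exponentials. -/
noncomputable def ev (m : ℕ) : MonoidAlgebra K Kˣ →ₐ[K] K := MonoidAlgebra.lift K K Kˣ (pw K m)

theorem ev_eq (m : ℕ) (u : MonoidAlgebra K Kˣ) :
    ev m u = ∑ g ∈ u.coeff.support, u.coeff g * (g : K) ^ m := by
  rw [ev, MonoidAlgebra.lift_apply]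
  rfl

theorem ev_single (m : ℕ) (g : Kˣ) (c : K) :
    ev m (MonoidAlgebra.single g c) = c * (g : K) ^ m := by
  rw [ev, MonoidAlgebra.lift_single]
  rfl

/-- The derivation multiplying `g` by `l g`. -/
noncomputable def D (l : Kˣ → K) (u : MonoidAlgebra K Kˣ) : MonoidAlgebra K Kˣ :=
  .ofCoeff (Finsupp.onFinset u.coeff.support (fun g => l g * u.coeff g) (by
    intro g hg
    rw [Finsupp.mem_support_iff]
    intro h
    exact hg (by rw [h, mul_zero])))

theorem coeff_D (l : Kˣ → K) (u : MonoidAlgebra K Kˣ) (g : Kˣ) :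
    (D l u).coeff g = l g * u.coeff g := rfl

theorem supp_D (l : Kˣ → K) (u : MonoidAlgebra K Kˣ) :
    (D l u).coeff.support ⊆ u.coeff.support := by
  intro g hg
  rw [Finsupp.mem_support_iff, coeff_D] at hg
  rw [Finsupp.mem_support_iff]
  exact right_ne_zero_of_mul hg

theorem D_add (l : Kˣ → K) (u v : MonoidAlgebra K Kˣ) : D l (u + v) = D l u + D l v := by
  ext g
  simp [coeff_D, mul_add]

theorem D_sub (l : Kˣ → K) (u v : MonoidAlgebra K Kˣ) : D l (u - v) = D l u - D l v := by
  ext g
  simp [coeff_D, mul_sub]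

theorem D_single (l : Kˣ → K) (g : Kˣ) (c : K) :
    D l (MonoidAlgebra.single g c) = MonoidAlgebra.single g (l g * c) := by
  classical
  ext h
  rw [coeff_D]
  simp only [MonoidAlgebra.coeff_single, Finsupp.single_apply]
  split_ifs with hh
  · rw [hh]
  · rw [mul_zero]

theorem D_mul (l : Kˣ → K) (hl : ∀ g h, l (g * h) = l g + l h) (u v : MonoidAlgebra K Kˣ) :
    D l (u * v) = D l u * v + u * D l v := by
  have h0 : D l 0 = 0 := by
    ext g
    simp [coeff_D]
  induction u using MonoidAlgebra.induction_linear with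
  | zero => simp [h0]
  | add a b ha hb => rw [add_mul, D_add, D_add, ha, hb]; ring
  | single g c =>
    induction v using MonoidAlgebra.induction_linear with
    | zero => simp [h0]
    | add a b ha hb => rw [mul_add, D_add, D_add, ha, hb]; ring
    | single h d =>
      rw [MonoidAlgebra.single_mul_single, D_single, D_single, D_single,
        MonoidAlgebra.single_mul_single, MonoidAlgebra.single_mul_single, hl,
        ← MonoidAlgebra.single_add]
      congr 1
      ring

/-- Lagrange interpolation: a coefficientwise change of a sum of exponentials is a combination of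
its shifts. -/
theorem interp (f : Kˣ → K) (u : MonoidAlgebra K Kˣ) :
    ∃ (N : ℕ) (p : ℕ → K), ∀ m, ∑ g ∈ u.coeff.support, f g * u.coeff g * (g : K) ^ m =
      ∑ k ∈ range N, p k * ev (m + k) u := by
  classical
  let P := Lagrange.interpolate u.coeff.support (fun g : Kˣ => (g : K)) f
  have hP : ∀ g ∈ u.coeff.support, P.eval (g : K) = f g := by
    intro g hg
    exact Lagrange.eval_interpolate_at_node (v := fun g : Kˣ => (g : K)) f
      (Units.val_injective.injOn) hg
  refine ⟨P.natDegree + 1, fun k => P.coeff k, fun m => ?_⟩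
  simp only [ev_eq, Finset.mul_sum]
  rw [Finset.sum_comm]
  refine Finset.sum_congr rfl fun g hg => ?_
  rw [← hP g hg, Polynomial.eval_eq_sum_range]
  rw [Finset.sum_mul, Finset.sum_mul]
  refine Finset.sum_congr rfl fun k _ => ?_
  rw [pow_add]
  ring

end Pool.Agent.TH143.HL
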