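import Pool.Agent.TH143.HL.A

set_option autoImplicit false

namespace Pool.Agent.TH143.HL

open Finset

variable {K : Type} [Field K]

theorem ev_D (l : Kˣ → K) (u : MonoidAlgebra K Kˣ) (m : ℕ) :
    ev m (D l u) = ∑ g ∈ u.coeff.support, l g * u.coeff g * (g : K) ^ m := by
  rw [ev_eq]
  refine Finset.sum_subset (supp_D l u) ?_
  intro g _ hg
  rw [Finsupp.notMem_support_iff] at hg
  rw [coeff_D] at hg ⊢
  rw [hg, zero_mul]

/-- An additive function on `Kˣ` not vanishing at an element of infinite order. -/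
theorem exists_log (g : Kˣ) (hg : ∀ n : ℕ, n ≠ 0 → g ^ n ≠ 1) :
    ∃ l : Kˣ → ℚ, (∀ a b, l (a * b) = l a + l b) ∧ l g ≠ 0 := by
  let f : Additive Kˣ →ₗ[ℤ] TensorProduct ℤ ℚ (Additive Kˣ) := TensorProduct.mk ℤ ℚ (Additive Kˣ) 1
  have hloc : IsLocalizedModule (nonZeroDivisors ℤ) f :=
    IsLocalization.tensorProduct_isLocalizedModule (nonZeroDivisors ℤ) ℚ
  have h1 : f (Additive.ofMul g) ≠ 0 := by
    intro h
    rw [IsLocalizedModule.eq_zero_iff (nonZeroDivisors ℤ)] at h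
    obtain ⟨⟨c, hc0⟩, hc⟩ := h
    have hc1 : c • Additive.ofMul g = 0 := hc
    have hc2 : g ^ c = 1 := hc1
    have hc3 : c ≠ 0 := nonZeroDivisors.ne_zero hc0
    rcases Int.natAbs_eq c with h | h
    · rw [h, zpow_natCast] at hc2
      exact hg c.natAbs (Int.natAbs_ne_zero.2 hc3) hc2
    · rw [h, zpow_neg, zpow_natCast, inv_eq_one] at hc2
      exact hg c.natAbs (Int.natAbs_ne_zero.2 hc3) hc2
  obtain ⟨φ, hφ⟩ : ∃ φ : Module.Dual ℚ (TensorProduct ℤ ℚ (Additive Kˣ)),
      φ (f (Additive.ofMul g)) ≠ 0 := by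
    by_contra hcon
    push Not at hcon
    exact h1 ((Module.forall_dual_apply_eq_zero_iff ℚ _).1 hcon)
  refine ⟨fun a => φ (f (Additive.ofMul a)), fun a b => ?_, hφ⟩
  change φ (f (Additive.ofMul (a * b))) = _
  rw [ofMul_mul, map_add, map_add]

/-- Common denominators. -/
theorem exists_den [NumberField K] (p : ℕ → K) (N : ℕ) :
    ∃ d : ℤ, d ≠ 0 ∧ ∀ k < N, IsIntegral ℤ ((d : K) * p k) := by
  induction N with
  | zero => exact ⟨1, one_ne_zero, fun k hk => absurd hk (Nat.not_lt_zero k)⟩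
  | succ N ih =>
    obtain ⟨d, hd, hd1⟩ := ih
    have halg : IsAlgebraic ℤ (p N) :=
      (IsFractionRing.isAlgebraic_iff ℤ ℚ K).2 (Algebra.IsAlgebraic.isAlgebraic (p N))
    obtain ⟨e, he, he1⟩ := halg.exists_integral_multiple
    refine ⟨d * e, mul_ne_zero hd he, fun k hk => ?_⟩
    push_cast
    rcases Nat.lt_succ_iff_lt_or_eq.1 hk with h | h
    · have h1 := (isIntegral_algebraMap (R := ℤ) (A := K) (x := e)).mul (hd1 k h)
      have h2 : (d : K) * (e : K) * p k = algebraMap ℤ K e * ((d : K) * p k) := by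
        rw [eq_intCast]; ring
      rw [h2]
      exact h1
    · have h1 := (isIntegral_algebraMap (R := ℤ) (A := K) (x := d)).mul he1
      have h2 : (d : K) * (e : K) * p k = algebraMap ℤ K d * (e • p N) := by
        rw [eq_intCast, h, zsmul_eq_mul]; ring
      rw [h2]
      exact h1

/-- Coefficientwise changes of integral sequences: denominators and bounds. -/
theorem change [NumberField K] (f : Kˣ → K) (u : MonoidAlgebra K Kˣ) (s : ℕ → ℤ)
    (hs : ∀ m, ev m u = s m) :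
    ∃ (N : ℕ) (C : ℝ) (d : ℤ), d ≠ 0 ∧ 0 ≤ C ∧ ∀ m,
      IsIntegral ℤ ((d : K) * ∑ g ∈ u.coeff.support, f g * u.coeff g * (g : K) ^ m) ∧
      ∀ (σ : K →+* ℂ) (B : ℝ), (∀ k < N, |(s (m + k) : ℝ)| ≤ B) →
        ‖σ (∑ g ∈ u.coeff.support, f g * u.coeff g * (g : K) ^ m)‖ ≤ C * B := by
  obtain ⟨N, p, hp⟩ := interp f u
  obtain ⟨d, hd, hd1⟩ := exists_den p N
  refine ⟨N, ∑ σ : K →+* ℂ, ∑ k ∈ range N, ‖σ (p k)‖, d, hd, by positivity, fun m => ⟨?_, ?_⟩⟩
  · rw [hp m, Finset.mul_sum]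
    refine IsIntegral.sum _ fun k hk => ?_
    rw [hs, ← mul_assoc]
    have h1 := (hd1 k (Finset.mem_range.1 hk)).mul
      (isIntegral_algebraMap (R := ℤ) (A := K) (x := s (m + k)))
    rwa [eq_intCast] at h1
  · intro σ B hB
    rw [hp m, map_sum]
    have h0 : ∑ k ∈ range N, ‖σ (p k)‖ ≤ ∑ σ : K →+* ℂ, ∑ k ∈ range N, ‖σ (p k)‖ :=
      Finset.single_le_sum (f := fun σ : K →+* ℂ => ∑ k ∈ range N, ‖σ (p k)‖)
        (fun _ _ => by positivity) (Finset.mem_univ σ)
    rcases Nat.eq_zero_or_pos N with hN | hN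
    · subst hN
      simp
    have hB0 : 0 ≤ B := (abs_nonneg _).trans (hB 0 hN)
    calc ‖∑ k ∈ range N, σ (p k * ev (m + k) u)‖ ≤ ∑ k ∈ range N, ‖σ (p k * ev (m + k) u)‖ :=
          norm_sum_le _ _
      _ ≤ ∑ k ∈ range N, ‖σ (p k)‖ * B := by
          refine Finset.sum_le_sum fun k hk => ?_
          rw [map_mul, norm_mul, hs, map_intCast, Complex.norm_intCast]
          exact mul_le_mul_of_nonneg_left (hB k (Finset.mem_range.1 hk)) (norm_nonneg _)
      _ = (∑ k ∈ range N, ‖σ (p k)‖) * B := by rw [Finset.sum_mul]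
      _ ≤ _ := mul_le_mul_of_nonneg_right h0 hB0

/-- A nonzero algebraic integer has absolute value at least one somewhere. -/
theorem exists_one_le [NumberField K] (w : K) (hw : IsIntegral ℤ w) (hw0 : w ≠ 0) :
    ∃ σ : K →+* ℂ, 1 ≤ ‖σ w‖ := by
  by_contra hcon
  push Not at hcon
  obtain ⟨v⟩ : Nonempty (NumberField.InfinitePlace K) := inferInstance
  let a : NumberField.RingOfIntegers K := ⟨w, hw⟩
  have ha : a ≠ 0 := by
    intro h
    exact hw0 (congrArg (fun t : NumberField.RingOfIntegers K => (t : K)) h)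
  have hlt : ∀ z : NumberField.InfinitePlace K, z (a : K) < 1 := by
    intro z
    have h1 := hcon z.embedding
    rwa [NumberField.InfinitePlace.norm_embedding_eq] at h1
  exact absurd (NumberField.InfinitePlace.one_le_of_lt_one ha (w := v) fun z _ => hlt z)
    (not_le.2 (hlt v))

end Pool.Agent.TH143.HL
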