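import Pool.Agent.TH143.HL.B

set_option autoImplicit false

namespace Pool.Agent.TH143.HL

open Finset Filter Topology

variable {K : Type} [Field K]

/-- Upper bound. -/
theorem upper (φ : K →+* ℂ) (X : MonoidAlgebra K Kˣ) (G : ℝ)
    (hG : ∀ g ∈ X.coeff.support, ‖φ (g : K)‖ ≤ G) (m : ℕ) :
    ‖φ (ev m X)‖ ≤ (∑ g ∈ X.coeff.support, ‖φ (X.coeff g)‖) * G ^ m := by
  rw [ev_eq, map_sum, Finset.sum_mul]
  refine (norm_sum_le _ _).trans (Finset.sum_le_sum fun g hg => ?_)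
  rw [map_mul, norm_mul, map_pow, norm_pow]
  exact mul_le_mul_of_nonneg_left (pow_le_pow_left₀ (norm_nonneg _) (hG g hg) m) (norm_nonneg _)

/-- Lower bound for a sum with a dominant root. -/
theorem lower (φ : K →+* ℂ) (X : MonoidAlgebra K Kˣ) (g0 : Kˣ) (h0 : g0 ∈ X.coeff.support)
    (hdom : ∀ g ∈ X.coeff.support, g ≠ g0 → ‖φ (g : K)‖ < ‖φ (g0 : K)‖) :
    ∃ c : ℝ, 0 < c ∧ ∃ m0 : ℕ, ∀ m, m0 ≤ m → c * ‖φ (g0 : K)‖ ^ m ≤ ‖φ (ev m X)‖ := by
  classical
  set G := ‖φ (g0 : K)‖ with hGdef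
  have hG : 0 < G := by
    rw [hGdef, norm_pos_iff]
    exact (map_ne_zero φ).2 g0.ne_zero
  have ha : 0 < ‖φ (X.coeff g0)‖ := by
    rw [norm_pos_iff]
    exact (map_ne_zero φ).2 (Finsupp.mem_support_iff.1 h0)
  have ht : Tendsto (fun m : ℕ => ∑ g ∈ X.coeff.support.erase g0,
      ‖φ (X.coeff g)‖ * (‖φ (g : K)‖ / G) ^ m) atTop (𝓝 0) := by
    have h1 : Tendsto (fun m : ℕ => ∑ g ∈ X.coeff.support.erase g0,
        ‖φ (X.coeff g)‖ * (‖φ (g : K)‖ / G) ^ m) atTop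
        (𝓝 (∑ g ∈ X.coeff.support.erase g0, ‖φ (X.coeff g)‖ * 0)) := by
      refine tendsto_finsetSum _ fun g hg => ?_
      rw [Finset.mem_erase] at hg
      refine Tendsto.const_mul _ (tendsto_pow_atTop_nhds_zero_of_lt_one (by positivity) ?_)
      rw [div_lt_one hG]
      exact hdom g hg.2 hg.1
    simpa using h1
  obtain ⟨m0, hm0⟩ := eventually_atTop.1 (ht.eventually (gt_mem_nhds (half_pos ha)))
  refine ⟨‖φ (X.coeff g0)‖ / 2, half_pos ha, m0, fun m hm => ?_⟩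
  have h1 := hm0 m hm
  rw [ev_eq, ← Finset.add_sum_erase _ _ h0, map_add]
  have h2 : ‖φ (∑ g ∈ X.coeff.support.erase g0, X.coeff g * (g : K) ^ m)‖ ≤
      (∑ g ∈ X.coeff.support.erase g0, ‖φ (X.coeff g)‖ * (‖φ (g : K)‖ / G) ^ m) * G ^ m := by
    rw [map_sum, Finset.sum_mul]
    refine (norm_sum_le _ _).trans (Finset.sum_le_sum fun g _ => ?_)
    rw [map_mul, norm_mul, map_pow, norm_pow, div_pow, mul_assoc,
      div_mul_cancel₀ _ (pow_pos hG m).ne']
  have h3 : ‖φ (X.coeff g0 * (g0 : K) ^ m)‖ = ‖φ (X.coeff g0)‖ * G ^ m := by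
    rw [map_mul, norm_mul, map_pow, norm_pow]
  have h4 := norm_sub_norm_le (φ (X.coeff g0 * (g0 : K) ^ m))
    (-φ (∑ g ∈ X.coeff.support.erase g0, X.coeff g * (g : K) ^ m))
  rw [norm_neg, sub_neg_eq_add, h3] at h4
  have h5 := mul_le_mul_of_nonneg_right h1.le (pow_pos hG m).le
  linarith

/-- A root is visible in every window. -/
theorem window [NumberField K] (φ : K →+* ℂ) (u : MonoidAlgebra K Kˣ) (s : ℕ → ℤ)
    (hs : ∀ m, ev m u = s m) (d : Kˣ) (hd : d ∈ u.coeff.support) :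
    ∃ (N : ℕ) (C : ℝ), 0 ≤ C ∧ ∀ (m : ℕ) (B : ℝ), (∀ k < N, |(s (m + k) : ℝ)| ≤ B) →
      ‖φ (d : K)‖ ^ m ≤ C * B := by
  classical
  obtain ⟨N, C, e, -, hC, h⟩ := change (fun g => if g = d then (1 : K) else 0) u s hs
  have ha : 0 < ‖φ (u.coeff d)‖ := by
    rw [norm_pos_iff]
    exact (map_ne_zero φ).2 (Finsupp.mem_support_iff.1 hd)
  refine ⟨N, C / ‖φ (u.coeff d)‖, by positivity, fun m B hB => ?_⟩
  have h1 := (h m).2 φ B hB
  have h2 : ∑ g ∈ u.coeff.support, (if g = d then (1 : K) else 0) * u.coeff g * (g : K) ^ m =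
      u.coeff d * (d : K) ^ m := by
    rw [Finset.sum_eq_single_of_mem d hd]
    · rw [if_pos rfl, one_mul]
    · intro g _ hg
      rw [if_neg hg, zero_mul, zero_mul]
  rw [h2, map_mul, norm_mul, map_pow, norm_pow] at h1
  rw [div_mul_eq_mul_div, le_div_iff₀ ha]
  linarith

/-- A nonzero sum of exponentials is nonzero somewhere in every window. -/
theorem window_ne (u : MonoidAlgebra K Kˣ) (hu : u ≠ 0) :
    ∃ N : ℕ, ∀ m, ∃ k < N, ev (m + k) u ≠ 0 := by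
  classical
  have h0 : u.coeff.support.Nonempty := by
    rw [Finsupp.support_nonempty_iff]
    intro h
    apply hu
    ext g
    rw [h]
    rfl
  obtain ⟨d, hd⟩ := h0
  obtain ⟨N, p, hp⟩ := interp (fun g => if g = d then (1 : K) else 0) u
  refine ⟨N, fun m => ?_⟩
  by_contra hcon
  push Not at hcon
  have h1 := hp m
  have h2 : ∑ k ∈ range N, p k * ev (m + k) u = 0 :=
    Finset.sum_eq_zero fun k hk => by rw [hcon k (Finset.mem_range.1 hk), mul_zero]
  rw [h2, Finset.sum_eq_single_of_mem d hd, if_pos rfl, one_mul] at h1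
  · exact mul_ne_zero (Finsupp.mem_support_iff.1 hd) (pow_ne_zero m d.ne_zero) h1
  · intro g _ hg
    rw [if_neg hg, zero_mul, zero_mul]

/-- The identity for the Wronskian. -/
theorem wronsk (l : Kˣ → K) (hl : ∀ g h, l (g * h) = l g + l h) (X Y : MonoidAlgebra K Kˣ)
    (m : ℕ) :
    ev m (X * D l (Y ^ 2 - X ^ 3) - 3 * ((Y ^ 2 - X ^ 3) * D l X)) =
      ev m Y * (2 * ev m X * ev m (D l Y) - 3 * ev m Y * ev m (D l X)) := by
  have h1 : D l (Y ^ 2 - X ^ 3) = D l Y * Y + Y * D l Y -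
      ((D l X * X + X * D l X) * X + X * X * D l X) := by
    rw [D_sub, sq, D_mul l hl, pow_succ, sq, D_mul l hl, D_mul l hl]
  rw [h1]
  simp only [map_sub, map_mul, map_add, map_pow, map_ofNat]
  ring

/-- The Wronskian is not zero. -/
theorem wronsk_ne (φ : K →+* ℂ) (X Z : MonoidAlgebra K Kˣ) (g0 d : Kˣ)
    (h0 : g0 ∈ X.coeff.support) (hd : d ∈ Z.coeff.support)
    (hdom : ∀ g ∈ X.coeff.support, g ≠ g0 → ‖φ (g : K)‖ < ‖φ (g0 : K)‖)
    (hmax : ∀ g ∈ Z.coeff.support, ‖φ (g : K)‖ ≤ ‖φ (d : K)‖)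
    (l : Kˣ → K) (hl : l d ≠ 3 * l g0) :
    X * D l Z - 3 * (Z * D l X) ≠ 0 := by
  have hpos : ∀ g : Kˣ, 0 < ‖φ (g : K)‖ := fun g => by
    rw [norm_pos_iff]
    exact (map_ne_zero φ).2 g.ne_zero
  have hU : UniqueMul X.coeff.support Z.coeff.support g0 d := by
    intro a b ha hb hab
    by_cases h : a = g0
    · refine ⟨h, ?_⟩
      rw [h] at hab
      exact mul_left_cancel hab
    · exfalso
      have h1 := mul_lt_mul_of_pos_of_nonneg' (hdom a ha h) (hmax b hb) (hpos b)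
        (norm_nonneg (φ (g0 : K)))
      have h2 : ‖φ (a : K)‖ * ‖φ (b : K)‖ = ‖φ (g0 : K)‖ * ‖φ (d : K)‖ := by
        rw [← norm_mul, ← map_mul, ← norm_mul, ← map_mul, ← Units.val_mul, hab, Units.val_mul]
      linarith
  have hU1 : UniqueMul X.coeff.support (D l Z).coeff.support g0 d :=
    hU.mono (Finset.Subset.refl _) (supp_D l Z)
  have hU2 : UniqueMul (D l X).coeff.support Z.coeff.support g0 d :=
    hU.mono (supp_D l X) (Finset.Subset.refl _)
  intro hcon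
  have h1 := congrArg (fun t : MonoidAlgebra K Kˣ => t.coeff (g0 * d)) hcon
  have h3 : (3 : MonoidAlgebra K Kˣ) * (Z * D l X) =
      D l X * Z + D l X * Z + D l X * Z := by ring
  simp only [h3, MonoidAlgebra.coeff_sub, MonoidAlgebra.coeff_add, Finsupp.sub_apply,
    Finsupp.add_apply, MonoidAlgebra.coeff_mul_mul_of_uniqueMul hU1,
    MonoidAlgebra.coeff_mul_mul_of_uniqueMul hU2, coeff_D, MonoidAlgebra.coeff_zero,
    Finsupp.zero_apply] at h1
  have h4 : X.coeff g0 * Z.coeff d * (l d - 3 * l g0) = 0 := by linear_combination h1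
  rcases mul_eq_zero.1 h4 with h5 | h5
  · exact mul_ne_zero (Finsupp.mem_support_iff.1 h0) (Finsupp.mem_support_iff.1 hd) h5
  · exact hl (sub_eq_zero.1 h5)

end Pool.Agent.TH143.HL
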