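import Pool.Agent.TH143.HL.C

set_option autoImplicit false

namespace Pool.Agent.TH143.HL

open Finset Filter Topology

variable {K : Type} [Field K]

/-- The main estimate: where the Wronskian does not vanish, `y` is bounded by the product of the
sizes of `x` and of `z = y ^ 2 - x ^ 3` in a window. -/
theorem product [NumberField K] (X Y : MonoidAlgebra K Kˣ) (x y : ℕ → ℤ)
    (hx : ∀ m, ev m X = x m) (hy : ∀ m, ev m Y = y m) (l : Kˣ → K)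
    (hl : ∀ g h, l (g * h) = l g + l h) :
    ∃ (N : ℕ) (C : ℝ), 0 ≤ C ∧ ∀ m,
      ev m (X * D l (Y ^ 2 - X ^ 3) - 3 * ((Y ^ 2 - X ^ 3) * D l X)) ≠ 0 →
      ∀ Bx Bz : ℝ, (∀ k < N, |(x (m + k) : ℝ)| ≤ Bx) →
        (∀ k < N, |((y (m + k) ^ 2 - x (m + k) ^ 3 : ℤ) : ℝ)| ≤ Bz) →
        |(y m : ℝ)| ≤ C * (Bx * Bz) := by
  have hz : ∀ m, ev m (Y ^ 2 - X ^ 3) = ((y m ^ 2 - x m ^ 3 : ℤ) : K) := by
    intro m
    rw [map_sub, map_pow, map_pow, hx, hy]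
    push_cast
    ring
  obtain ⟨N1, C1, d1, hd1, hC1, h1⟩ := change l X x hx
  obtain ⟨N2, C2, d2, hd2, hC2, h2⟩ := change l Y y hy
  obtain ⟨N3, C3, d3, hd3, hC3, h3⟩ := change l (Y ^ 2 - X ^ 3) (fun m => y m ^ 2 - x m ^ 3) hz
  simp only [← ev_D] at h1 h2 h3
  refine ⟨N1 + N3 + 1, |((d1 * d2 : ℤ) : ℝ)| * (C3 + 3 * C1), by positivity, ?_⟩
  intro m hV Bx Bz hBx hBz
  have hBx0 : |(x m : ℝ)| ≤ Bx := hBx 0 (Nat.succ_pos _)
  have hBz0 : |((y m ^ 2 - x m ^ 3 : ℤ) : ℝ)| ≤ Bz := hBz 0 (Nat.succ_pos _)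
  have hW := wronsk l hl X Y m
  set W := 2 * ev m X * ev m (D l Y) - 3 * ev m Y * ev m (D l X) with hWdef
  have hW0 : W ≠ 0 := by
    intro h
    rw [h, mul_zero] at hW
    exact hV hW
  -- integrality
  have hint : IsIntegral ℤ (((d1 * d2 : ℤ) : K) * W) := by
    have e1 : ((d1 * d2 : ℤ) : K) * W =
        algebraMap ℤ K (2 * x m * d1) * ((d2 : K) * ev m (D l Y)) -
          algebraMap ℤ K (3 * y m * d2) * ((d1 : K) * ev m (D l X)) := by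
      rw [hWdef, hx, hy]
      simp only [eq_intCast]
      push_cast
      ring
    rw [e1]
    exact (isIntegral_algebraMap.mul (h2 m).1).sub (isIntegral_algebraMap.mul (h1 m).1)
  obtain ⟨σ, hσ⟩ := exists_one_le _ hint (mul_ne_zero (by
    have : (d1 * d2 : ℤ) ≠ 0 := mul_ne_zero hd1 hd2
    exact_mod_cast this) hW0)
  have hk1 : ‖σ (ev m (D l X))‖ ≤ C1 * Bx :=
    (h1 m).2 σ Bx fun k hk => hBx k (by omega)
  have hk3 : ‖σ (ev m (D l (Y ^ 2 - X ^ 3)))‖ ≤ C3 * Bz :=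
    (h3 m).2 σ Bz fun k hk => hBz k (by omega)
  have hb1 : 0 ≤ Bx := (abs_nonneg _).trans hBx0
  have hb2 : 0 ≤ Bz := (abs_nonneg _).trans hBz0
  have e2 : σ ((y m : K) * (((d1 * d2 : ℤ) : K) * W)) = ((d1 * d2 : ℤ) : ℂ) *
      ((x m : ℂ) * σ (ev m (D l (Y ^ 2 - X ^ 3))) -
        3 * (((y m ^ 2 - x m ^ 3 : ℤ) : ℂ) * σ (ev m (D l X)))) := by
    have e3 : (y m : K) * (((d1 * d2 : ℤ) : K) * W) = ((d1 * d2 : ℤ) : K) *
        ev m (X * D l (Y ^ 2 - X ^ 3) - 3 * ((Y ^ 2 - X ^ 3) * D l X)) := by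
      rw [hW, hy]
      ring
    rw [e3, map_mul, map_intCast]
    congr 1
    rw [map_sub (ev m), map_mul (ev m), map_mul (ev m), map_mul (ev m), hz, hx, map_ofNat,
      map_sub, map_mul, map_mul, map_mul, map_intCast, map_intCast, map_ofNat]
  have h5 : |(y m : ℝ)| ≤ ‖σ ((y m : K) * (((d1 * d2 : ℤ) : K) * W))‖ := by
    rw [map_mul, norm_mul, map_intCast, Complex.norm_intCast]
    nlinarith [abs_nonneg (y m : ℝ)]
  rw [e2, norm_mul, Complex.norm_intCast] at h5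
  have h6 : ‖(x m : ℂ) * σ (ev m (D l (Y ^ 2 - X ^ 3))) -
        3 * (((y m ^ 2 - x m ^ 3 : ℤ) : ℂ) * σ (ev m (D l X)))‖ ≤
      Bx * (C3 * Bz) + 3 * (Bz * (C1 * Bx)) := by
    refine (norm_sub_le _ _).trans (add_le_add ?_ ?_)
    · rw [norm_mul, Complex.norm_intCast]
      exact mul_le_mul hBx0 hk3 (norm_nonneg _) hb1
    · rw [norm_mul, norm_mul, Complex.norm_intCast]
      have : ‖(3 : ℂ)‖ = 3 := by norm_num
      rw [this]
      exact mul_le_mul_of_nonneg_left (mul_le_mul hBz0 hk1 (norm_nonneg _) hb2) (by norm_num)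
  calc |(y m : ℝ)| ≤ _ := h5
    _ ≤ |((d1 * d2 : ℤ) : ℝ)| * (Bx * (C3 * Bz) + 3 * (Bz * (C1 * Bx))) :=
        mul_le_mul_of_nonneg_left h6 (abs_nonneg _)
    _ = _ := by ring

end Pool.Agent.TH143.HL
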