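import Pool.Agent.TH143.HL.Main

set_option autoImplicit false

namespace Pool.Agent.TH143.HL

open Finset Filter Topology

variable {K : Type} [Field K]

/-- From the bound for `x` to Hall's inequality. -/
theorem hall_of_x (x y : ℤ) (C : ℝ) (hC : 0 ≤ C) (hz : y ^ 2 ≠ x ^ 3)
    (h : |(x : ℝ)| ≤ C * ((y ^ 2 - x ^ 3 : ℤ) : ℝ) ^ 2) :
    max |(x : ℝ)| |(y : ℝ)| ≤ (1 + C) ^ 3 * |((y ^ 2 - x ^ 3 : ℤ) : ℝ)| ^ 3 := by
  set Z := |((y ^ 2 - x ^ 3 : ℤ) : ℝ)| with hZ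
  have hZ1 : 1 ≤ Z := by
    have : 1 ≤ |y ^ 2 - x ^ 3| := Int.one_le_abs (sub_ne_zero.2 hz)
    rw [hZ]
    exact_mod_cast this
  have hZsq : ((y ^ 2 - x ^ 3 : ℤ) : ℝ) ^ 2 = Z ^ 2 := by rw [hZ, sq_abs]
  rw [hZsq] at h
  have hZ3 : Z ^ 2 ≤ Z ^ 3 := pow_le_pow_right₀ hZ1 (by norm_num)
  have hC3 : C ≤ (1 + C) ^ 3 := by nlinarith [mul_nonneg hC hC, mul_nonneg hC (mul_nonneg hC hC)]
  have hC31 : 1 ≤ (1 + C) ^ 3 := one_le_pow₀ (by linarith)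
  have hZpos : 0 < Z ^ 3 := by positivity
  refine max_le ?_ ?_
  · calc |(x : ℝ)| ≤ C * Z ^ 2 := h
      _ ≤ C * Z ^ 3 := mul_le_mul_of_nonneg_left hZ3 hC
      _ ≤ (1 + C) ^ 3 * Z ^ 3 := mul_le_mul_of_nonneg_right hC3 hZpos.le
  · have e1 : (y : ℝ) ^ 2 = ((y ^ 2 - x ^ 3 : ℤ) : ℝ) + (x : ℝ) ^ 3 := by push_cast; ring
    have h1 : |(y : ℝ)| ^ 2 ≤ Z + (C * Z ^ 2) ^ 3 := by
      rw [← abs_pow, e1]
      refine (abs_add_le _ _).trans (add_le_add le_rfl ?_)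
      rw [abs_pow]
      exact pow_le_pow_left₀ (abs_nonneg _) h 3
    have h2 : Z + (C * Z ^ 2) ^ 3 ≤ ((1 + C) ^ 3 * Z ^ 3) ^ 2 := by
      have hZ6 : Z ≤ Z ^ 6 := by
        calc Z = Z ^ 1 := (pow_one Z).symm
          _ ≤ Z ^ 6 := pow_le_pow_right₀ hZ1 (by norm_num)
      have e2 : (C * Z ^ 2) ^ 3 = C ^ 3 * Z ^ 6 := by ring
      have e3 : ((1 + C) ^ 3 * Z ^ 3) ^ 2 = ((1 + C) ^ 3) ^ 2 * Z ^ 6 := by ring
      have h3 : 1 + C ^ 3 ≤ (1 + C) ^ 3 := by nlinarith [mul_nonneg hC hC]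
      have h4 : (1 + C) ^ 3 ≤ ((1 + C) ^ 3) ^ 2 := by nlinarith
      rw [e2, e3]
      have h5 := mul_le_mul_of_nonneg_right (h3.trans h4) (by positivity : (0 : ℝ) ≤ Z ^ 6)
      linarith
    exact le_of_sq_le_sq (h1.trans h2) (by positivity)

/-- Only finitely many terms matter. -/
theorem absorb (x y : ℕ → ℤ) (m0 : ℕ) (C : ℝ)
    (h : ∀ m, m0 ≤ m → y m ^ 2 ≠ x m ^ 3 →
      max |(x m : ℝ)| |(y m : ℝ)| ≤ C * |((y m ^ 2 - x m ^ 3 : ℤ) : ℝ)| ^ 3) :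
    ∃ C : ℝ, ∀ m, y m ^ 2 ≠ x m ^ 3 →
      max |(x m : ℝ)| |(y m : ℝ)| ≤ C * |((y m ^ 2 - x m ^ 3 : ℤ) : ℝ)| ^ 3 := by
  refine ⟨max C (∑ k ∈ range m0, max |(x k : ℝ)| |(y k : ℝ)|), fun m hz => ?_⟩
  have hZ1 : 1 ≤ |((y m ^ 2 - x m ^ 3 : ℤ) : ℝ)| ^ 3 := by
    refine one_le_pow₀ ?_
    have : 1 ≤ |y m ^ 2 - x m ^ 3| := Int.one_le_abs (sub_ne_zero.2 hz)
    exact_mod_cast this
  rcases le_or_gt m0 m with hm | hm
  · refine (h m hm hz).trans (mul_le_mul_of_nonneg_right (le_max_left _ _) (by linarith))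
  · have h1 : max |(x m : ℝ)| |(y m : ℝ)| ≤ ∑ k ∈ range m0, max |(x k : ℝ)| |(y k : ℝ)| :=
      Finset.single_le_sum (f := fun k => max |(x k : ℝ)| |(y k : ℝ)|)
        (fun k _ => le_max_of_le_left (abs_nonneg _)) (Finset.mem_range.2 hm)
    have h2 : (0 : ℝ) ≤ max C (∑ k ∈ range m0, max |(x k : ℝ)| |(y k : ℝ)|) :=
      le_max_of_le_right (Finset.sum_nonneg fun k _ => le_max_of_le_left (abs_nonneg _))
    have h3 := h1.trans (le_max_right C _)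
    nlinarith

/-- The statement in windows. -/
theorem windows [NumberField K] (φ : K →+* ℂ) (X Y : MonoidAlgebra K Kˣ) (x y : ℕ → ℤ)
    (hx : ∀ m, ev m X = x m) (hy : ∀ m, ev m Y = y m) (g0 : Kˣ) (h0 : g0 ∈ X.coeff.support)
    (hdom : ∀ g ∈ X.coeff.support, g ≠ g0 → ‖φ (g : K)‖ < ‖φ (g0 : K)‖)
    (hne : Y ^ 2 - X ^ 3 ≠ 0) :
    ∃ (R : ℕ) (C : ℝ), ∀ m, ∃ n, m ≤ n ∧ n < m + R ∧ y n ^ 2 ≠ x n ^ 3 ∧
      max |(x n : ℝ)| |(y n : ℝ)| ≤ C * |((y n ^ 2 - x n ^ 3 : ℤ) : ℝ)| ^ 3 := by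
  obtain ⟨R, m0, C, C', hC, hC', hG1, hup, h⟩ := main φ X Y x y hx hy g0 h0 hdom hne
  set G := ‖φ (g0 : K)‖
  refine ⟨R + m0, (1 + C' * G ^ R * C) ^ 3, fun m => ?_⟩
  obtain ⟨n, hn1, hn2, hn3⟩ := h (max m m0) (le_max_right _ _)
  have hG0 : 0 < G := by linarith
  have hzn : y n ^ 2 ≠ x n ^ 3 := by
    intro he
    rw [he, sub_self, Int.cast_zero] at hn3
    have := pow_pos hG0 (max m m0)
    nlinarith
  refine ⟨n, (le_max_left _ _).trans hn1, ?_, hzn, hall_of_x _ _ _ (by positivity) hzn ?_⟩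
  · rcases le_total m m0 with hh | hh
    · rw [max_eq_right hh] at hn2
      omega
    · rw [max_eq_left hh] at hn2
      omega
  · calc |(x n : ℝ)| ≤ C' * G ^ n := hup n
      _ ≤ C' * G ^ (max m m0 + R) :=
          mul_le_mul_of_nonneg_left (pow_le_pow_right₀ hG1 hn2.le) hC'.le
      _ = C' * G ^ R * G ^ (max m m0) := by rw [pow_add]; ring
      _ ≤ C' * G ^ R * (C * ((y n ^ 2 - x n ^ 3 : ℤ) : ℝ) ^ 2) :=
          mul_le_mul_of_nonneg_left hn3 (by positivity)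
      _ = _ := by ring

/-- The pointwise statement, if `z` grows at most geometrically in ratio. -/
theorem pointwise [NumberField K] (φ : K →+* ℂ) (X Y : MonoidAlgebra K Kˣ) (x y : ℕ → ℤ)
    (hx : ∀ m, ev m X = x m) (hy : ∀ m, ev m Y = y m) (g0 : Kˣ) (h0 : g0 ∈ X.coeff.support)
    (hdom : ∀ g ∈ X.coeff.support, g ≠ g0 → ‖φ (g : K)‖ < ‖φ (g0 : K)‖)
    (hne : Y ^ 2 - X ^ 3 ≠ 0) (B : ℝ) (m1 : ℕ)
    (hB : ∀ m, m1 ≤ m → |((y (m + 1) ^ 2 - x (m + 1) ^ 3 : ℤ) : ℝ)| ≤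
      B * |((y m ^ 2 - x m ^ 3 : ℤ) : ℝ)|) :
    ∃ C : ℝ, ∀ m, y m ^ 2 ≠ x m ^ 3 →
      max |(x m : ℝ)| |(y m : ℝ)| ≤ C * |((y m ^ 2 - x m ^ 3 : ℤ) : ℝ)| ^ 3 := by
  obtain ⟨R, m0, C, C', hC, hC', hG1, hup, h⟩ := main φ X Y x y hx hy g0 h0 hdom hne
  set G := ‖φ (g0 : K)‖
  set A := max B 1 with hA
  have hA1 : 1 ≤ A := le_max_right _ _
  have hstep : ∀ m, m1 ≤ m → ∀ k, |((y (m + k) ^ 2 - x (m + k) ^ 3 : ℤ) : ℝ)| ≤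
      A ^ k * |((y m ^ 2 - x m ^ 3 : ℤ) : ℝ)| := by
    intro m hm k
    induction k with
    | zero => simp
    | succ k ih =>
      have h1 := hB (m + k) (by omega)
      rw [add_assoc] at h1
      have h2 : B * |((y (m + k) ^ 2 - x (m + k) ^ 3 : ℤ) : ℝ)| ≤
          A * |((y (m + k) ^ 2 - x (m + k) ^ 3 : ℤ) : ℝ)| :=
        mul_le_mul_of_nonneg_right (le_max_left _ _) (abs_nonneg _)
      have h3 := mul_le_mul_of_nonneg_left ih (by linarith : (0 : ℝ) ≤ A)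
      calc _ ≤ _ := h1
        _ ≤ _ := h2
        _ ≤ _ := h3
        _ = _ := by ring
  refine absorb x y (max m0 m1) ((1 + C' * C * (A ^ R) ^ 2) ^ 3) fun m hm hz => ?_
  refine hall_of_x _ _ _ (by positivity) hz ?_
  obtain ⟨n, hn1, hn2, hn3⟩ := h m ((le_max_left _ _).trans hm)
  obtain ⟨k, rfl⟩ := Nat.exists_eq_add_of_le hn1
  have h1 := hstep m ((le_max_right _ _).trans hm) k
  have h2 : A ^ k * |((y m ^ 2 - x m ^ 3 : ℤ) : ℝ)| ≤ A ^ R * |((y m ^ 2 - x m ^ 3 : ℤ) : ℝ)| :=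
    mul_le_mul_of_nonneg_right (pow_le_pow_right₀ hA1 (by omega)) (abs_nonneg _)
  have h3 : ((y (m + k) ^ 2 - x (m + k) ^ 3 : ℤ) : ℝ) ^ 2 ≤
      (A ^ R) ^ 2 * ((y m ^ 2 - x m ^ 3 : ℤ) : ℝ) ^ 2 := by
    have h4 := pow_le_pow_left₀ (abs_nonneg _) (h1.trans h2) 2
    rwa [sq_abs, mul_pow, sq_abs] at h4
  calc |(x m : ℝ)| ≤ C' * G ^ m := hup m
    _ ≤ C' * (C * ((y (m + k) ^ 2 - x (m + k) ^ 3 : ℤ) : ℝ) ^ 2) :=
        mul_le_mul_of_nonneg_left hn3 hC'.le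
    _ ≤ C' * (C * ((A ^ R) ^ 2 * ((y m ^ 2 - x m ^ 3 : ℤ) : ℝ) ^ 2)) :=
        mul_le_mul_of_nonneg_left (mul_le_mul_of_nonneg_left h3 hC.le) hC'.le
    _ = _ := by ring

end Pool.Agent.TH143.HL
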