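import Pool.Agent.TH143.HL.Fin

set_option autoImplicit false

namespace Pool.Agent.TH143.HL

open Finset Filter Topology

variable {K : Type} [Field K]

/-- All roots lie in `T`. -/
def In (T : Subgroup Kˣ) (u : MonoidAlgebra K Kˣ) : Prop := ∀ g ∈ u.coeff.support, g ∈ T

theorem In.mul {T : Subgroup Kˣ} {u v : MonoidAlgebra K Kˣ} (hu : In T u) (hv : In T v) :
    In T (u * v) := by
  classical
  intro g hg
  have h1 := MonoidAlgebra.support_coeff_mul_subset u v hg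
  obtain ⟨a, ha, b, hb, rfl⟩ := Finset.mem_mul.1 h1
  exact T.mul_mem (hu a ha) (hv b hb)

theorem In.sub {T : Subgroup Kˣ} {u v : MonoidAlgebra K Kˣ} (hu : In T u) (hv : In T v) :
    In T (u - v) := by
  classical
  intro g hg
  rw [Finsupp.mem_support_iff, MonoidAlgebra.coeff_sub, Finsupp.sub_apply] at hg
  by_cases h : u.coeff g = 0
  · refine hv g (Finsupp.mem_support_iff.2 fun h' => hg ?_)
    rw [h, h', sub_zero]
  · exact hu g (Finsupp.mem_support_iff.2 h)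

/-- The sum of exponentials as an element of the group ring. -/
noncomputable def mk {r : ℕ} (α : Fin r → Kˣ) (a : Fin r → K) : MonoidAlgebra K Kˣ :=
  ∑ i, MonoidAlgebra.single (α i) (a i)

theorem ev_mk {r : ℕ} (α : Fin r → Kˣ) (a : Fin r → K) (m : ℕ) :
    ev m (mk α a) = ∑ i, a i * (α i : K) ^ m := by
  rw [mk, map_sum]
  exact Finset.sum_congr rfl fun i _ => ev_single m (α i) (a i)

theorem coeff_mk {r : ℕ} (α : Fin r → Kˣ) (a : Fin r → K) [DecidableEq Kˣ] (g : Kˣ) :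
    (mk α a).coeff g = ∑ i, if α i = g then a i else 0 := by
  rw [mk, MonoidAlgebra.coeff_sum, Finsupp.finsetSum_apply]
  refine Finset.sum_congr rfl fun i _ => ?_
  rw [MonoidAlgebra.coeff_single, Finsupp.single_apply]

theorem mem_mk {r : ℕ} (α : Fin r → Kˣ) (a : Fin r → K) (g : Kˣ)
    (hg : g ∈ (mk α a).coeff.support) : ∃ i, α i = g := by
  classical
  rw [Finsupp.mem_support_iff, coeff_mk] at hg
  by_contra hcon
  push Not at hcon
  exact hg (Finset.sum_eq_zero fun i _ => if_neg (hcon i))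

/-- The case of roots of distinct absolute values. -/
theorem group [NumberField K] (φ : K →+* ℂ) (T : Subgroup Kˣ)
    (hT : ∀ g ∈ T, ‖φ (g : K)‖ = 1 → g = 1) (X Y : MonoidAlgebra K Kˣ) (hX : In T X) (hY : In T Y)
    (x y : ℕ → ℤ) (hx : ∀ m, ev m X = x m) (hy : ∀ m, ev m Y = y m) :
    ∃ C : ℝ, ∀ m, y m ^ 2 ≠ x m ^ 3 →
      max |(x m : ℝ)| |(y m : ℝ)| ≤ C * |((y m ^ 2 - x m ^ 3 : ℤ) : ℝ)| ^ 3 := by
  classical
  have hpos : ∀ g : Kˣ, 0 < ‖φ (g : K)‖ := fun g => by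
    rw [norm_pos_iff]
    exact (map_ne_zero φ).2 g.ne_zero
  have hinj : ∀ g ∈ T, ∀ h ∈ T, ‖φ (g : K)‖ = ‖φ (h : K)‖ → g = h := by
    intro g hg h hh he
    have h1 : ‖φ ((g * h⁻¹ : Kˣ) : K)‖ = 1 := by
      rw [Units.val_mul, Units.val_inv_eq_inv_val, map_mul, map_inv₀, norm_mul, norm_inv, he,
        mul_inv_cancel₀ (hpos h).ne']
    exact mul_inv_eq_one.1 (hT _ (T.mul_mem hg (T.inv_mem hh)) h1)
  have hdomT : ∀ u : MonoidAlgebra K Kˣ, In T u → u ≠ 0 → ∃ g0 ∈ u.coeff.support,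
      (∀ g ∈ u.coeff.support, g ≠ g0 → ‖φ (g : K)‖ < ‖φ (g0 : K)‖) ∧
      ∀ g ∈ u.coeff.support, ‖φ (g : K)‖ ≤ ‖φ (g0 : K)‖ := by
    intro u hu hu0
    have hne : u.coeff.support.Nonempty := by
      rw [Finsupp.support_nonempty_iff]
      intro h
      apply hu0
      ext g
      rw [h]
      rfl
    obtain ⟨g0, h0, h1⟩ := Finset.exists_max_image u.coeff.support
      (fun g => ‖φ (g : K)‖) hne
    exact ⟨g0, h0, fun g hg hne => lt_of_le_of_ne (h1 g hg) fun he =>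
      hne (hinj g (hu g hg) g0 (hu g0 h0) he), h1⟩
  by_cases hZ : Y ^ 2 - X ^ 3 = 0
  · refine ⟨0, fun m hm => absurd ?_ hm⟩
    have h1 := congrArg (ev m) hZ
    rw [map_sub, map_pow, map_pow, hx, hy, map_zero, sub_eq_zero] at h1
    exact_mod_cast h1
  by_cases hX0 : X = 0
  · have hx0 : ∀ m, x m = 0 := by
      intro m
      have h1 := hx m
      rw [hX0, map_zero] at h1
      exact_mod_cast h1.symm
    refine ⟨(1 + 0) ^ 3, fun m hm => hall_of_x _ _ 0 le_rfl hm ?_⟩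
    rw [hx0]
    simp
  obtain ⟨g0, h0, hdom, -⟩ := hdomT X hX hX0
  have hZT : In T (Y ^ 2 - X ^ 3) := by
    rw [sq, pow_succ, sq]
    exact (hY.mul hY).sub ((hX.mul hX).mul hX)
  obtain ⟨d, hd, hdomd, hmax⟩ := hdomT _ hZT hZ
  obtain ⟨c, hc, m1, hlow⟩ := lower φ (Y ^ 2 - X ^ 3) d hd hdomd
  have hup := upper φ (Y ^ 2 - X ^ 3) ‖φ (d : K)‖ hmax
  have hz : ∀ m, ‖φ (ev m (Y ^ 2 - X ^ 3))‖ = |((y m ^ 2 - x m ^ 3 : ℤ) : ℝ)| := by
    intro m
    rw [map_sub, map_pow, map_pow, hx, hy, ← Complex.norm_intCast, map_sub, map_pow, map_pow,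
      map_intCast, map_intCast]
    push_cast
    rfl
  simp only [hz] at hlow hup
  set S := ∑ g ∈ (Y ^ 2 - X ^ 3).coeff.support, ‖φ ((Y ^ 2 - X ^ 3).coeff g)‖ with hS
  have hS0 : 0 ≤ S := by positivity
  refine pointwise φ X Y x y hx hy g0 h0 hdom hZ (S * ‖φ (d : K)‖ / c) m1 fun m hm => ?_
  have h1 := hlow m hm
  have h2 := hup (m + 1)
  rw [div_mul_eq_mul_div, le_div_iff₀ hc]
  calc |((y (m + 1) ^ 2 - x (m + 1) ^ 3 : ℤ) : ℝ)| * c
      ≤ S * ‖φ (d : K)‖ ^ (m + 1) * c := mul_le_mul_of_nonneg_right h2 hc.le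
    _ = S * ‖φ (d : K)‖ * (c * ‖φ (d : K)‖ ^ m) := by rw [pow_succ]; ring
    _ ≤ _ := mul_le_mul_of_nonneg_left h1 (by positivity)

end Pool.Agent.TH143.HL
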