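import Pool.Agent.TH143.HL.Core

set_option autoImplicit false

namespace Pool.Agent.TH143.HL

open Finset Filter Topology

variable {K : Type} [Field K]

theorem one_le_of_dom (x : ℕ → ℤ) (G c C : ℝ) (m0 : ℕ) (hG : 0 < G) (hc : 0 < c)
    (hlow : ∀ m, m0 ≤ m → c * G ^ m ≤ |(x m : ℝ)|) (hup : ∀ m, |(x m : ℝ)| ≤ C * G ^ m) :
    1 ≤ G := by
  by_contra hcon
  push Not at hcon
  have ht : Tendsto (fun m : ℕ => C * G ^ m) atTop (𝓝 (C * 0)) :=
    (tendsto_pow_atTop_nhds_zero_of_lt_one hG.le hcon).const_mul C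
  rw [mul_zero] at ht
  obtain ⟨m1, hm1⟩ := eventually_atTop.1 (ht.eventually (gt_mem_nhds one_pos))
  have h1 := hm1 (max m0 m1) (le_max_right _ _)
  have h2 := hup (max m0 m1)
  have h3 := hlow (max m0 m1) (le_max_left _ _)
  have h4 : |(x (max m0 m1) : ℝ)| < 1 := lt_of_le_of_lt h2 h1
  have h5 : x (max m0 m1) = 0 := by
    have : |x (max m0 m1)| < 1 := by exact_mod_cast h4
    exact Int.abs_lt_one_iff.1 this
  rw [h5, Int.cast_zero, abs_zero] at h3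
  have h6 := mul_pos hc (pow_pos hG (max m0 m1))
  linarith

theorem abs_le_sq_int (a : ℤ) : |(a : ℝ)| ≤ (a : ℝ) ^ 2 := by
  have h : |a| ≤ a ^ 2 := by
    rcases eq_or_ne a 0 with h | h
    · rw [h]; simp
    · have h1 : 1 ≤ |a| := Int.one_le_abs h
      nlinarith [sq_abs a]
  exact_mod_cast h

/-- Sizes in windows. -/
theorem main [NumberField K] (φ : K →+* ℂ) (X Y : MonoidAlgebra K Kˣ) (x y : ℕ → ℤ)
    (hx : ∀ m, ev m X = x m) (hy : ∀ m, ev m Y = y m) (g0 : Kˣ) (h0 : g0 ∈ X.coeff.support)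
    (hdom : ∀ g ∈ X.coeff.support, g ≠ g0 → ‖φ (g : K)‖ < ‖φ (g0 : K)‖)
    (hne : Y ^ 2 - X ^ 3 ≠ 0) :
    ∃ (R m0 : ℕ) (C C' : ℝ), 0 < C ∧ 0 < C' ∧ 1 ≤ ‖φ (g0 : K)‖ ∧
      (∀ m, |(x m : ℝ)| ≤ C' * ‖φ (g0 : K)‖ ^ m) ∧
      ∀ m, m0 ≤ m → ∃ n, m ≤ n ∧ n < m + R ∧
        ‖φ (g0 : K)‖ ^ m ≤ C * ((y n ^ 2 - x n ^ 3 : ℤ) : ℝ) ^ 2 := by
  classical
  set G := ‖φ (g0 : K)‖ with hGdef
  have hGpos : 0 < G := by
    rw [hGdef, norm_pos_iff]
    exact (map_ne_zero φ).2 g0.ne_zero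
  have hz : ∀ m, ev m (Y ^ 2 - X ^ 3) = ((y m ^ 2 - x m ^ 3 : ℤ) : K) := by
    intro m
    rw [map_sub, map_pow, map_pow, hx, hy]
    push_cast
    ring
  have hnx : ∀ m, ‖φ (ev m X)‖ = |(x m : ℝ)| := fun m => by
    rw [hx, map_intCast, Complex.norm_intCast]
  obtain ⟨c1, hc1, m1, hlow⟩ := lower φ X g0 h0 hdom
  have hup : ∀ m, |(x m : ℝ)| ≤ (∑ g ∈ X.coeff.support, ‖φ (X.coeff g)‖ + 1) * G ^ m := by
    intro m
    have h1 := upper φ X G (fun g hg => by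
      by_cases h : g = g0
      · rw [h]
      · exact (hdom g hg h).le) m
    rw [hnx] at h1
    have h2 := pow_pos hGpos m
    nlinarith
  simp only [hnx] at hlow
  set C' := ∑ g ∈ X.coeff.support, ‖φ (X.coeff g)‖ + 1 with hC'def
  have hC' : 0 < C' := by positivity
  have hG1 : 1 ≤ G := one_le_of_dom x G c1 C' m1 hGpos hc1 hlow hup
  -- a maximal root of z
  have hnonempty : (Y ^ 2 - X ^ 3).coeff.support.Nonempty := by
    rw [Finsupp.support_nonempty_iff]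
    intro h
    apply hne
    ext g
    rw [h]
    rfl
  obtain ⟨d, hd, hmax⟩ := Finset.exists_max_image (Y ^ 2 - X ^ 3).coeff.support
    (fun g => ‖φ (g : K)‖) hnonempty
  have hmx : ∀ (m R : ℕ), 0 < R → ∃ n, m ≤ n ∧ n < m + R ∧ ∀ k < R,
      |((y (m + k) ^ 2 - x (m + k) ^ 3 : ℤ) : ℝ)| ≤ |((y n ^ 2 - x n ^ 3 : ℤ) : ℝ)| := by
    intro m R hR
    obtain ⟨n, hn, hn1⟩ := Finset.exists_max_image (Finset.Ico m (m + R))
      (fun n => |((y n ^ 2 - x n ^ 3 : ℤ) : ℝ)|) ⟨m, Finset.mem_Ico.2 ⟨le_rfl, by omega⟩⟩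
    rw [Finset.mem_Ico] at hn
    exact ⟨n, hn.1, hn.2, fun k hk => hn1 (m + k) (Finset.mem_Ico.2 ⟨by omega, by omega⟩)⟩
  rcases le_or_gt (G ^ 3) ‖φ (d : K)‖ with hA | hB
  · -- z is large
    obtain ⟨N, C, hC, h⟩ := window φ (Y ^ 2 - X ^ 3) (fun m => y m ^ 2 - x m ^ 3) hz d hd
    refine ⟨N + 1, 0, C + 1, C', by positivity, hC', hG1, hup, fun m _ => ?_⟩
    obtain ⟨n, hn1, hn2, hn3⟩ := hmx m (N + 1) (Nat.succ_pos _)
    refine ⟨n, hn1, hn2, ?_⟩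
    have h1 := h m _ fun k hk => hn3 k (by omega)
    have h2 : G ^ m ≤ ‖φ (d : K)‖ ^ m := by
      refine pow_le_pow_left₀ hGpos.le ?_ m
      refine le_trans ?_ hA
      nlinarith [sq_nonneg (G - 1), mul_nonneg hGpos.le (sub_nonneg.2 hG1)]
    have h3 := abs_le_sq_int (y n ^ 2 - x n ^ 3)
    have h4 : C * |((y n ^ 2 - x n ^ 3 : ℤ) : ℝ)| ≤
        C * ((y n ^ 2 - x n ^ 3 : ℤ) : ℝ) ^ 2 := mul_le_mul_of_nonneg_left h3 hC
    have h5 := sq_nonneg ((y n ^ 2 - x n ^ 3 : ℤ) : ℝ)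
    linarith
  · -- use the Wronskian
    have hinf : ∀ n : ℕ, n ≠ 0 → (d * g0⁻¹ ^ 3) ^ n ≠ 1 := by
      intro n hn h
      have h1 : ‖φ ((d * g0⁻¹ ^ 3 : Kˣ) : K)‖ < 1 := by
        rw [Units.val_mul, Units.val_pow_eq_pow_val, Units.val_inv_eq_inv_val, map_mul, map_pow,
          map_inv₀, norm_mul, norm_pow, norm_inv, inv_pow, ← div_eq_mul_inv,
          div_lt_one (pow_pos hGpos 3)]
        exact hB
      have h2 : ‖φ ((d * g0⁻¹ ^ 3 : Kˣ) : K)‖ ^ n = 1 := by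
        rw [← norm_pow, ← map_pow, ← Units.val_pow_eq_pow_val, h, Units.val_one, map_one, norm_one]
      have h3 := pow_lt_one₀ (norm_nonneg _) h1 hn
      linarith
    obtain ⟨l0, hl0, hl1⟩ := exists_log (d * g0⁻¹ ^ 3) hinf
    let l : Kˣ → K := fun g => (l0 g : K)
    have hl : ∀ g h, l (g * h) = l g + l h := by
      intro g h
      change ((l0 (g * h) : ℚ) : K) = _
      rw [hl0, Rat.cast_add]
    have hld : l d ≠ 3 * l g0 := by
      intro h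
      apply hl1
      have h1 : l0 1 = 0 := by
        have := hl0 1 1
        rw [mul_one] at this
        linarith
      have h2 : l0 g0⁻¹ = -l0 g0 := by
        have := hl0 g0 g0⁻¹
        rw [mul_inv_cancel, h1] at this
        linarith
      have h3 : l0 d = 3 * l0 g0 := by
        have h4 : ((l0 d : ℚ) : K) = ((3 * l0 g0 : ℚ) : K) := by
          push_cast
          exact h
        exact_mod_cast h4
      have h5 : l0 (g0⁻¹ ^ 3) = 3 * l0 g0⁻¹ := by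
        rw [pow_succ, sq, hl0, hl0]
        ring
      rw [hl0, h5, h2, h3]
      ring
    have hV := wronsk_ne φ X (Y ^ 2 - X ^ 3) g0 d h0 hd hdom hmax l hld
    obtain ⟨N1, hN1⟩ := window_ne _ hV
    obtain ⟨N2, C, hC, hprod⟩ := product X Y x y hx hy l hl
    -- the constants
    set R := N1 + N2 + 1 with hR
    set A := C * (C' * G ^ R) with hAdef
    have hA0 : 0 ≤ A := by positivity
    refine ⟨R, m1, (A ^ 2 + 1) / c1 ^ 3, C', by positivity, hC', hG1, hup, fun m hm => ?_⟩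
    obtain ⟨n, hn1, hn2, hn3⟩ := hmx m R (Nat.succ_pos _)
    refine ⟨n, hn1, hn2, ?_⟩
    set Z := |((y n ^ 2 - x n ^ 3 : ℤ) : ℝ)| with hZ
    have hZsq : ((y n ^ 2 - x n ^ 3 : ℤ) : ℝ) ^ 2 = Z ^ 2 := by rw [hZ, sq_abs]
    have hZ0 : 0 ≤ Z := abs_nonneg _
    have hZ1 : Z ≤ Z ^ 2 := by
      rw [← hZsq]
      exact abs_le_sq_int _
    obtain ⟨k, hk, hkV⟩ := hN1 m
    have hy1 : |(y (m + k) : ℝ)| ≤ C * (C' * G ^ (m + R) * Z) := by
      refine hprod (m + k) hkV _ _ ?_ ?_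
      · intro j hj
        refine (hup _).trans (mul_le_mul_of_nonneg_left ?_ hC'.le)
        exact pow_le_pow_right₀ hG1 (by omega)
      · intro j hj
        have := hn3 (k + j) (by omega)
        rwa [← add_assoc] at this
    have hy2 : |(y (m + k) : ℝ)| ≤ A * G ^ m * Z := by
      refine hy1.trans (le_of_eq ?_)
      rw [hAdef, pow_add]
      ring
    have hx2 : c1 * G ^ m ≤ |(x (m + k) : ℝ)| := by
      refine le_trans ?_ (hlow (m + k) (by omega))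
      exact mul_le_mul_of_nonneg_left (pow_le_pow_right₀ hG1 (by omega)) hc1.le
    have hz2 : |((y (m + k) ^ 2 - x (m + k) ^ 3 : ℤ) : ℝ)| ≤ Z := hn3 k (by omega)
    have hx3 : |(x (m + k) : ℝ)| ^ 3 ≤ |(y (m + k) : ℝ)| ^ 2 + Z := by
      have e1 : (x (m + k) : ℝ) ^ 3 = (y (m + k) : ℝ) ^ 2 -
          ((y (m + k) ^ 2 - x (m + k) ^ 3 : ℤ) : ℝ) := by
        push_cast
        ring
      rw [← abs_pow, e1, ← abs_pow]
      exact (abs_sub _ _).trans (add_le_add le_rfl hz2)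
    have hP : 0 < G ^ m := pow_pos hGpos m
    have hP1 : 1 ≤ G ^ m := one_le_pow₀ hG1
    have h7 : (c1 * G ^ m) ^ 3 ≤ (A * G ^ m * Z) ^ 2 + Z := by
      refine (pow_le_pow_left₀ (by positivity) hx2 3).trans (hx3.trans ?_)
      exact add_le_add (pow_le_pow_left₀ (abs_nonneg _) hy2 2) le_rfl
    have h8 : (A * G ^ m * Z) ^ 2 + Z ≤ (A ^ 2 + 1) * (G ^ m) ^ 2 * Z ^ 2 := by
      have : Z ^ 2 ≤ (G ^ m) ^ 2 * Z ^ 2 := by
        nlinarith [sq_nonneg Z, one_le_pow₀ hP1 (n := 2)]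
      nlinarith
    have h9 : c1 ^ 3 * G ^ m ≤ (A ^ 2 + 1) * Z ^ 2 := by
      have h10 : (c1 ^ 3 * G ^ m) * (G ^ m) ^ 2 ≤ ((A ^ 2 + 1) * Z ^ 2) * (G ^ m) ^ 2 := by
        calc (c1 ^ 3 * G ^ m) * (G ^ m) ^ 2 = (c1 * G ^ m) ^ 3 := by ring
          _ ≤ _ := h7.trans h8
          _ = _ := by ring
      exact le_of_mul_le_mul_right h10 (by positivity)
    rw [hZsq, div_mul_eq_mul_div, le_div_iff₀ (by positivity)]
    linarith

end Pool.Agent.TH143.HL
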